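import Pool.Agent.Lib.MP_b5021c_nt.IfaceEV

/-!
# Row EV_POT of PaperEV.md: the potential lemma

`n = norm al`, `n2 = norm de`, `w = norm (al - de)`, `s = n + n2 - w`, `4 n n2 = s² + 3 k²`.
The second vector `de' = al - u (al - de)`, `u` a sixth root of unity, has the same `w`.
Either one of `de`, `de'` has norm one (lemma `case_one`), or one of them has norm between `3` and
`n / 4` (`case_mid`), or both have norm at least `n / 4` and then `4 w ≤ 3 n` (`case_big`).
-/

namespace Pool.Agent.B5.H79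

open Pool.Agent.B5
open Pool.Agent.MP_b5021c_nt (Eis)

/-- One of the two vectors has norm one. -/
theorem case_one {n s k k0 w : ℤ} (hn : 2 ≤ n) (hs : 0 ≤ s) (h1 : 4 * n = s ^ 2 + 3 * k ^ 2)
    (h2 : n ≤ s ^ 2) (hw : w = n + 1 - s) (hk0 : 0 ≤ k0) (h3 : k0 ^ 2 ≤ 4 * n)
    (h4 : 4 * n < (k0 + 1) ^ 2) (h5 : k0 ^ 2 ≤ 4 * w) : False := by
  -- `k0 ∈ {2s - 2, 2s - 1, 2s}`
  have a1 : k0 ≤ 2 * s := by
    by_contra hc
    push Not at hc
    nlinarith
  have a2 : 2 * s - 2 ≤ k0 := by nlinarith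
  have hk2 : k ^ 2 ≤ s ^ 2 := by nlinarith
  have hs1 : 1 ≤ s := by
    by_contra hc
    have : s = 0 := by omega
    rw [this] at h2
    linarith
  have b1 : k0 = 2 * s - 2 ∨ k0 = 2 * s - 1 ∨ k0 = 2 * s := by omega
  rcases b1 with rfl | rfl | rfl
  · -- `3 k² = 3 s² - 4 s`
    have c1 : 3 * s ^ 2 - 4 * s ≤ 3 * k ^ 2 := by nlinarith
    have c2 : 3 * k ^ 2 ≤ 3 * s ^ 2 - 4 * s := by nlinarith
    have c3 : 3 * k ^ 2 = 3 * s ^ 2 - 4 * s := le_antisymm c2 c1
    obtain ⟨r, hr⟩ : ∃ r, s = 3 * r := ⟨s ^ 2 - k ^ 2 - s, by linarith⟩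
    have c4 : k ^ 2 = 9 * r ^ 2 - 4 * r := by
      rw [hr] at c3
      linarith
    have hr1 : 1 ≤ r := by omega
    have c5 : |k| ^ 2 = 9 * r ^ 2 - 4 * r := by rw [sq_abs]; exact c4
    have hk := abs_nonneg k
    clear hr c3 c1 c2 h1 h2 h3 h4 h5 a1 a2 hk2 c4
    generalize |k| = x at *
    have c6 : x < 3 * r := by
      by_contra hc
      push Not at hc
      have : (3 * r) ^ 2 ≤ x ^ 2 := pow_le_pow_left₀ (by linarith) hc 2
      linarith
    have c7 : 3 * r - 1 < x := by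
      by_contra hc
      push Not at hc
      have : x ^ 2 ≤ (3 * r - 1) ^ 2 := pow_le_pow_left₀ hk hc 2
      linarith
    omega
  · have c1 : 3 * s ^ 2 - 3 ≤ 3 * k ^ 2 := by nlinarith
    have c2 : s ^ 2 - 1 ≤ k ^ 2 := by linarith
    have c3 : k ^ 2 = s ^ 2 - 1 ∨ k ^ 2 = s ^ 2 := by omega
    rcases c3 with c3 | c3
    · have c5 : |k| ^ 2 = s ^ 2 - 1 := by rw [sq_abs]; exact c3
      have hk := abs_nonneg k
      have c6 : |k| < s := by
        by_contra hc
        push Not at hc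
        nlinarith
      have c7 : s = 1 := by
        by_contra hc
        have hs2 : 2 ≤ s := by omega
        have : s - 1 < |k| := by
          by_contra hc'
          push Not at hc'
          nlinarith
        omega
      subst c7
      have : k ^ 2 = 0 := by linarith
      rw [this] at h1
      omega
    · nlinarith
  · have c1 : s ≤ 1 := by nlinarith
    have c2 : s = 1 := by omega
    subst c2
    nlinarith

/-- The condition on `d = n - w`. -/
theorem dsq {n w k0 : ℤ} (h4 : 4 * n < (k0 + 1) ^ 2)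
    (h5 : k0 ^ 2 ≤ 4 * w) (hw : w ≤ n) : (n - w) ^ 2 + (n - w) ≤ n := by
  have h6 : 2 * (n - w) ≤ k0 := by nlinarith
  have h7 : (2 * (n - w)) ^ 2 ≤ k0 ^ 2 := by
    apply pow_le_pow_left₀ (by linarith) h6
  nlinarith

/-- A vector of norm between `3` and `n / 4`. -/
theorem case_mid {n m s w : ℤ} (hn : 13 ≤ n) (hm : 3 ≤ m) (hm4 : 4 * m ≤ n) (hs : 0 ≤ s)
    (hc : n * m ≤ s ^ 2) (hw : w = n + m - s) (hd : (n - w) ^ 2 + (n - w) ≤ n) : False := by
  have e1 : n - w = s - m := by linarith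
  rw [e1] at hd
  set N := Real.sqrt n with hN
  set x := Real.sqrt m with hx
  have hn0 : (13 : ℝ) ≤ n := by exact_mod_cast hn
  have hm0 : (3 : ℝ) ≤ m := by exact_mod_cast hm
  have hN2 : N ^ 2 = n := Real.sq_sqrt (by linarith)
  have hx2 : x ^ 2 = m := Real.sq_sqrt (by linarith)
  have hN0 : 0 ≤ N := Real.sqrt_nonneg _
  have hx0 : 0 ≤ x := Real.sqrt_nonneg _
  set t := Real.sqrt 3 with ht
  have ht2 : t ^ 2 = 3 := Real.sq_sqrt (by norm_num)
  have ht0 : 0 ≤ t := Real.sqrt_nonneg _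
  have htx : t ≤ x := Real.sqrt_le_sqrt hm0
  have hxN : 2 * x ≤ N := by
    apply le_of_sq_le_sq _ hN0
    rw [mul_pow, hx2, hN2]
    have : (4 : ℝ) * m ≤ n := by exact_mod_cast hm4
    linarith
  have hsN : N * x ≤ s := by
    have hs' : (0 : ℝ) ≤ s := by exact_mod_cast hs
    apply le_of_sq_le_sq _ hs'
    rw [mul_pow, hN2, hx2]
    exact_mod_cast hc
  have hd' : ((s : ℝ) - m) ^ 2 + (s - m) ≤ n := by exact_mod_cast hd
  have h1 : t * N - 3 ≤ s - m := by
    rw [← hx2]
    nlinarith [mul_nonneg (sub_nonneg.2 htx) (by linarith : (0 : ℝ) ≤ N - x - t)]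
  have h2 : 2 * t < N := by
    apply lt_of_pow_lt_pow_left₀ 2 hN0
    rw [mul_pow, ht2, hN2]
    linarith
  have h3 : 0 ≤ t * N - 3 := by nlinarith
  have h4 : (t * N - 3) ^ 2 + (t * N - 3) ≤ n := by
    have : (t * N - 3) ^ 2 ≤ ((s : ℝ) - m) ^ 2 := pow_le_pow_left₀ h3 h1 2
    linarith
  have h5 : (t * N - 3) ^ 2 + (t * N - 3) - n = (N - 2 * t) * (2 * N - t) := by
    have : (n : ℝ) = N ^ 2 := hN2.symm
    rw [this]
    linear_combination (N ^ 2 - 2) * ht2
  have h6 : 0 < (N - 2 * t) * (2 * N - t) := mul_pos (by linarith) (by linarith)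
  linarith

/-- Both vectors have norm at least `n / 4`. -/
theorem case_big {n s k : ℤ} (hn : 1 ≤ n) (hk : 0 ≤ k) (hks : k ≤ s)
    (h1 : n ^ 2 ≤ s ^ 2 + 3 * k ^ 2) (h2 : n ^ 2 ≤ (s - n) ^ 2 + 3 * (k - n) ^ 2)
    (h3 : s ^ 2 + 3 * k ^ 2 < 4 * n ^ 2) : (2 * n - s) ^ 2 + 3 * k ^ 2 ≤ 3 * n ^ 2 := by
  have a1 : n ≤ 2 * s := by
    by_contra hc
    push Not at hc
    nlinarith
  have a2 : k < n := by
    by_contra hc
    push Not at hc
    nlinarith
  have a3 : s < 2 * n := by
    by_contra hc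
    push Not at hc
    nlinarith
  obtain ⟨p, hp⟩ : ∃ p, k = n - p := ⟨n - k, by ring⟩
  obtain ⟨r, hr⟩ : ∃ r, s = 2 * n - r := ⟨2 * n - s, by ring⟩
  subst hp; subst hr
  have b1 : 0 < p := by linarith
  have b2 : 0 < r := by linarith
  have b3 : 2 * r ≤ 3 * n := by linarith
  have b4 : p ≤ n := by linarith
  have b5 : r * (2 * n - r) ≤ 3 * p ^ 2 := by nlinarith
  have b6 : r ≤ 3 * p := by
    by_contra hc
    push Not at hc
    nlinarith [mul_nonneg b2.le (sub_nonneg.2 b3)]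
  have b7 : 0 ≤ (3 * p - r) * (6 * n - 3 * p - r) := mul_nonneg (by linarith) (by linarith)
  have b8 : 0 ≤ r * (3 * n - 2 * r) := mul_nonneg b2.le (by linarith)
  nlinarith

/-- Residues of norms. -/
theorem norm_res (x : Eis) : x.norm % 3 ≠ 2 ∧ x.norm % 4 ≠ 2 := by
  rw [Eis.norm_eq]
  generalize x.re = a
  generalize x.im = b
  constructor
  · have ha : a % 3 = 0 ∨ a % 3 = 1 ∨ a % 3 = 2 := by omega
    have hb : b % 3 = 0 ∨ b % 3 = 1 ∨ b % 3 = 2 := by omega
    rcases ha with ha | ha | ha <;> rcases hb with hb | hb | hb <;>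
      simp [pow_two, Int.add_emod, Int.sub_emod, Int.mul_emod, ha, hb]
  · have ha : a % 4 = 0 ∨ a % 4 = 1 ∨ a % 4 = 2 ∨ a % 4 = 3 := by omega
    have hb : b % 4 = 0 ∨ b % 4 = 1 ∨ b % 4 = 2 ∨ b % 4 = 3 := by omega
    rcases ha with ha | ha | ha | ha <;> rcases hb with hb | hb | hb | hb <;>
      simp [pow_two, Int.add_emod, Int.sub_emod, Int.mul_emod, ha, hb]

/-- The two vectors. -/
theorem rot (al de : Eis) : ∃ (k s' k' : ℤ) (y : Eis), 0 ≤ k ∧
    4 * al.norm * de.norm = (al.norm + de.norm - (al - de).norm) ^ 2 + 3 * k ^ 2 ∧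
    2 * s' = 2 * al.norm + (al.norm + de.norm - (al - de).norm) - 3 * k ∧
    2 * k' = k - 2 * al.norm + (al.norm + de.norm - (al - de).norm) ∧
    (al - de).norm = al.norm + y.norm - s' ∧ 4 * al.norm * y.norm = s' ^ 2 + 3 * k' ^ 2 := by
  obtain ⟨a, b⟩ := al
  obtain ⟨c, d⟩ := de
  rcases le_total 0 (a * d - b * c) with h | h
  · refine ⟨a * d - b * c, a ^ 2 - a * b + b ^ 2 + ((c + b - d) ^ 2 - (c + b - d) * (b - a + c) +
      (b - a + c) ^ 2) - ((a - c) ^ 2 - (a - c) * (b - d) + (b - d) ^ 2),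
      -(b * c) - a ^ 2 + a * b - b ^ 2 + a * c + b * d, ⟨c + b - d, b - a + c⟩, h, ?_, ?_, ?_, ?_, ?_⟩
    all_goals simp only [Eis.norm_eq, QuadraticAlgebra.re_sub, QuadraticAlgebra.im_sub]
    all_goals ring
  · refine ⟨b * c - a * d, a ^ 2 - a * b + b ^ 2 + ((a - b + d) ^ 2 - (a - b + d) * (a + d - c) +
      (a + d - c) ^ 2) - ((a - c) ^ 2 - (a - c) * (b - d) + (b - d) ^ 2),
      -(a * d) - a ^ 2 + a * b - b ^ 2 + a * c + b * d, ⟨a - b + d, a + d - c⟩, by linarith,
      ?_, ?_, ?_, ?_, ?_⟩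
    all_goals simp only [Eis.norm_eq, QuadraticAlgebra.re_sub, QuadraticAlgebra.im_sub]
    all_goals ring

/-- The main step, for norms at least `13`. -/
theorem main13 (al de : Eis) (hde : de ≠ 0) (hlt : de.norm < al.norm) (hc : Cone60 al de)
    (hn : 13 ≤ al.norm) (k0 : ℤ) (hk0 : 0 ≤ k0) (h3 : k0 ^ 2 ≤ 4 * al.norm)
    (h4 : 4 * al.norm < (k0 + 1) ^ 2) (h5 : k0 ^ 2 ≤ 4 * (al - de).norm)
    (hw : (al - de).norm < al.norm) : False := by
  obtain ⟨k, s', k', y, hk, e1, e2, e3, e4, e5⟩ := rot al de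
  obtain ⟨hc0, hc1⟩ := hc
  have r1 := norm_res de
  have r2 := norm_res y
  have p1 := Eis.norm_pos hde
  have p2 := Eis.norm_nonneg y
  generalize al.norm = n at *
  generalize de.norm = m at *
  generalize (al - de).norm = w at *
  generalize y.norm = m' at *
  set s := n + m - w with hs
  have hks : k ≤ s := by
    apply le_of_sq_le_sq _ hc0
    nlinarith
  have hkn : k ≤ n := by nlinarith
  have hd := dsq h4 h5 hw.le
  have hks' : |k'| ≤ s' := by
    rw [abs_le]
    constructor <;> linarith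
  have hs0' : 0 ≤ s' := le_trans (abs_nonneg _) hks'
  have hc1' : n * m' ≤ s' ^ 2 := by
    have : k' ^ 2 ≤ s' ^ 2 := by
      rw [← sq_abs k']
      exact pow_le_pow_left₀ (abs_nonneg _) hks' 2
    nlinarith
  by_cases hm1 : m = 1
  · subst hm1
    exact case_one (k := k) (by linarith) hc0 (by linarith) (by linarith) (by linarith) hk0 h3 h4 h5
  by_cases hm4 : 4 * m ≤ n
  · exact case_mid hn (by omega) hm4 hc0 hc1 (by linarith) hd
  by_cases hm1' : m' = 1
  · subst hm1'
    exact case_one (k := k') (by linarith) hs0' (by linarith) (by linarith) e4 hk0 h3 h4 h5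
  have hm0' : m' ≠ 0 := by
    rintro rfl
    have h6 : s' ^ 2 + 3 * k' ^ 2 = 0 := by linarith
    have h7 : s' = 0 := by
      have h8 : s' ^ 2 = 0 := le_antisymm (by nlinarith [sq_nonneg k']) (sq_nonneg s')
      exact pow_eq_zero_iff (two_ne_zero) |>.1 h8
    rw [h7] at e4
    linarith
  by_cases hm4' : 4 * m' ≤ n
  · exact case_mid hn (by omega) hm4' hs0' hc1' e4 hd
  push Not at hm4 hm4'
  have hn0 : 0 < n := by linarith
  have g1 : n * n ≤ n * (4 * m) := mul_le_mul_of_nonneg_left hm4.le hn0.le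
  have g2 : n * n ≤ n * (4 * m') := mul_le_mul_of_nonneg_left hm4'.le hn0.le
  have g3 : n * m < n * n := mul_lt_mul_of_pos_left hlt hn0
  have h6 : n ^ 2 ≤ s ^ 2 + 3 * k ^ 2 := by rw [← e1, pow_two]; linarith
  have h7 : n ^ 2 ≤ (s - n) ^ 2 + 3 * (k - n) ^ 2 := by
    have : (s - n) ^ 2 + 3 * (k - n) ^ 2 = s' ^ 2 + 3 * k' ^ 2 := by
      have e7 : 2 * s' = 2 * n + s - 3 * k := e2
      have e8 : 2 * k' = k - 2 * n + s := e3
      have e9 : 4 * (s' ^ 2 + 3 * k' ^ 2) = (2 * s') ^ 2 + 3 * (2 * k') ^ 2 := by ring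
      have e10 : 4 * ((s - n) ^ 2 + 3 * (k - n) ^ 2) = (2 * s') ^ 2 + 3 * (2 * k') ^ 2 := by
        rw [e7, e8]
        ring
      linarith
    rw [this, ← e5, pow_two]; linarith
  have h8 : s ^ 2 + 3 * k ^ 2 < 4 * n ^ 2 := by rw [← e1, pow_two]; linarith
  have h9 := case_big (by linarith) hk hks h6 h7 h8
  have h10 : (2 * n - s) ^ 2 + 3 * k ^ 2 = 4 * n * w := by
    have : (2 * n - s) ^ 2 + 3 * k ^ 2 = 4 * n ^ 2 - 4 * n * s + (s ^ 2 + 3 * k ^ 2) := by ring
    rw [this, ← e1, hs]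
    ring
  rw [h10] at h9
  have h11 : 4 * w ≤ 3 * n := by
    apply le_of_mul_le_mul_left _ hn0
    linarith
  have h12 : n ≤ 4 * (n - w) := by linarith
  have h13 : n - w ≤ 3 := by
    by_contra hcon
    push Not at hcon
    have h14 : 4 * (n - w) ≤ (n - w) ^ 2 := by
      rw [pow_two]
      exact mul_le_mul_of_nonneg_right (by linarith) (by linarith)
    linarith
  linarith

theorem natAbs_norm (x : Eis) : ((nE x : ℕ) : ℤ) = x.norm :=
  Int.natAbs_of_nonneg (Eis.norm_nonneg x)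

theorem nE_res (x : Eis) : nE x % 3 ≠ 2 ∧ nE x % 4 ≠ 2 := by
  have h := norm_res x
  rw [← natAbs_norm] at h
  omega

theorem evp : EvpS := by
  intro al de hde hlt hc
  have hlt' : de.norm < al.norm := by
    rw [← natAbs_norm, ← natAbs_norm]; exact_mod_cast hlt
  have hw : (al - de).norm < al.norm := by
    obtain ⟨hc0, hc1⟩ := hc
    have p1 := Eis.norm_pos hde
    generalize al.norm = n at *
    generalize de.norm = m at *
    generalize (al - de).norm = w at *
    by_contra hcon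
    push Not at hcon
    have h1 : n + m - w ≤ m := by linarith
    have h2 : (n + m - w) ^ 2 ≤ m ^ 2 := pow_le_pow_left₀ hc0 h1 2
    have h3 : m * m < n * m := mul_lt_mul_of_pos_right hlt' (by linarith)
    rw [pow_two m] at h2
    linarith
  have hwN : nE (al - de) < nE al := by
    rw [← natAbs_norm, ← natAbs_norm] at hw; exact_mod_cast hw
  refine ⟨hwN, ?_⟩
  have r1 := nE_res al
  have r2 := nE_res (al - de)
  by_cases hn : 13 ≤ nE al
  · -- large norms
    have hn' : 13 ≤ al.norm := by rw [← natAbs_norm]; exact_mod_cast hn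
    have key : Nat.sqrt (4 * nE (al - de)) < Nat.sqrt (4 * nE al) := by
      by_contra hcon
      push Not at hcon
      set k0 := Nat.sqrt (4 * nE al) with hk0
      have g1 : k0 ^ 2 ≤ 4 * nE al := Nat.sqrt_le' _
      have g2 : 4 * nE al < (k0 + 1) ^ 2 := Nat.lt_succ_sqrt' _
      have g3 : k0 ^ 2 ≤ 4 * nE (al - de) := Nat.le_sqrt'.1 hcon
      refine main13 al de hde hlt' hc hn' (k0 : ℤ) (by positivity) ?_ ?_ ?_ hw
      · rw [← natAbs_norm]; exact_mod_cast g1
      · rw [← natAbs_norm]; exact_mod_cast g2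
      · rw [← natAbs_norm]; exact_mod_cast g3
    have hB : Bev (nE al) = Nat.sqrt (4 * nE al) := by
      unfold Bev; rw [if_neg (by omega), if_neg (by omega)]
    rw [hB]
    by_cases hw1 : nE (al - de) = 1
    · rw [hw1]
      have h1 : Bev 1 = 1 := rfl
      rw [h1, Nat.le_sqrt']
      omega
    by_cases hw12 : nE (al - de) = 12
    · rw [hw12]
      have h1 : Bev 12 = 7 := rfl
      have h16 : 16 ≤ nE al := by
        by_contra hcon
        push Not at hcon
        -- the norms 13, 14, 15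
        obtain ⟨k, s', k', y, hk, e1, -⟩ := rot al de
        obtain ⟨-, hc1⟩ := hc
        have r3 := norm_res de
        have p1 := Eis.norm_pos hde
        have hw' : (al - de).norm = 12 := by rw [← natAbs_norm, hw12]; rfl
        have hn2 : al.norm = 13 ∨ al.norm = 15 := by
          rw [← natAbs_norm]
          omega
        rw [hw'] at e1 hc1
        have hk3 : (al.norm + de.norm - 12) ^ 2 + 3 * k ^ 2 = 4 * al.norm * de.norm := e1.symm
        generalize de.norm = m at *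
        rcases hn2 with h | h
        · rw [h] at hk3 hc1 hlt'
          have hm : m ≤ 12 := by omega
          interval_cases m <;> omega
        · rw [h] at hk3 hc1 hlt'
          have hm : m ≤ 14 := by omega
          have hk13 : k ≤ 13 := by nlinarith
          interval_cases m <;> first | omega | (interval_cases k <;> omega)
      have h8 : 8 ≤ Nat.sqrt (4 * nE al) := by rw [Nat.le_sqrt']; omega
      omega
    · have hB' : Bev (nE (al - de)) = Nat.sqrt (4 * nE (al - de)) := by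
        unfold Bev; rw [if_neg hw1, if_neg hw12]
      rw [hB']
      omega
  · -- small norms
    push Not at hn
    generalize nE al = n at *
    generalize nE (al - de) = w at *
    interval_cases n <;> first | omega | (interval_cases w <;> first | omega | decide | norm_num [Bev])

end Pool.Agent.B5.H79
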