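import Pool.Agent.Lib.MP_b5021c_nt.IfaceEV

/-!
# Row EV_MON of PaperEV.md: monotonicity and superadditivity of the bound
-/

namespace Pool.Agent.B5.H79

open Pool.Agent.B5

theorem bev_sq (n : ℕ) : Bev n ^ 2 ≤ 4 * n + 1 := by
  unfold Bev
  split_ifs with h1 h2
  · omega
  · subst h2; norm_num
  · have := Nat.sqrt_le' (4 * n)
    omega

theorem sqrt_le_bev {n : ℕ} (h : n ≠ 1) : Nat.sqrt (4 * n) ≤ Bev n := by
  unfold Bev
  rw [if_neg h]
  split_ifs with h2
  · subst h2
    have : Nat.sqrt (4 * 12) < 7 := Nat.sqrt_lt'.2 (by norm_num)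
    omega
  · exact le_rfl

theorem bev_mono : Monotone Bev := by
  intro m n hmn
  by_cases hn1 : n = 1
  · subst hn1
    interval_cases m
    · decide
    · exact le_rfl
  · by_cases hm12 : m = 12
    · subst hm12
      have h12 : Bev 12 = 7 := rfl
      rw [h12]
      by_cases hn : n = 12
      · subst hn; exact le_of_eq rfl
      · refine le_trans ?_ (sqrt_le_bev hn1)
        rw [Nat.le_sqrt']
        omega
    · by_cases hm1 : m = 1
      · subst hm1
        refine le_trans ?_ (sqrt_le_bev hn1)
        have : Bev 1 = 1 := rfl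
        rw [this, Nat.le_sqrt']
        omega
      · refine le_trans ?_ (sqrt_le_bev hn1)
        have : Bev m = Nat.sqrt (4 * m) := by
          unfold Bev; rw [if_neg hm1, if_neg hm12]
        rw [this]
        exact Nat.sqrt_le_sqrt (by omega)

theorem bev_add {a b : ℕ} (ha : 3 ≤ a) (hb : 3 ≤ b) : Bev a + Bev b ≤ Bev (a * b) := by
  have hab : a * b ≠ 1 := by
    intro h
    have := Nat.eq_one_of_mul_eq_one_right h
    omega
  by_cases h : 5 + 2 * a + 2 * b ≤ a * b + 4
  · refine le_trans ?_ (sqrt_le_bev hab)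
    rw [Nat.le_sqrt']
    have h1 := bev_sq a
    have h2 := bev_sq b
    nlinarith [sq_nonneg ((Bev a : ℤ) - Bev b), two_mul_le_add_sq (Bev a) (Bev b)]
  · have hab' : (a - 2) * (b - 2) < 5 := by
      obtain ⟨x, rfl⟩ := Nat.exists_eq_add_of_le ha
      obtain ⟨y, rfl⟩ := Nat.exists_eq_add_of_le hb
      have e1 : 3 + x - 2 = x + 1 := by omega
      have e2 : 3 + y - 2 = y + 1 := by omega
      rw [e1, e2]
      nlinarith
    have ha6 : a ≤ 6 := by
      have : a - 2 < 5 := lt_of_le_of_lt (Nat.le_mul_of_pos_right _ (by omega)) hab'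
      omega
    have hb6 : b ≤ 6 := by
      have : b - 2 < 5 := lt_of_le_of_lt (Nat.le_mul_of_pos_left _ (by omega)) hab'
      omega
    have v3 : Bev 3 = 3 := by norm_num [Bev]
    have v4 : Bev 4 = 4 := by norm_num [Bev]
    have v5 : Bev 5 = 4 := by norm_num [Bev]
    have v6 : Bev 6 = 4 := by norm_num [Bev]
    have v9 : Bev 9 = 6 := by norm_num [Bev]
    have v12 : Bev 12 = 7 := by norm_num [Bev]
    have v15 : Bev 15 = 7 := by norm_num [Bev]
    have v16 : Bev 16 = 8 := by norm_num [Bev]
    have v18 : Bev 18 = 8 := by norm_num [Bev]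
    interval_cases a <;> interval_cases b <;> first | omega | (norm_num [v3, v4, v5, v6, v9, v12, v15, v16, v18])

theorem prod_ge {ι : Type} (s : Finset ι) (x : ι → ℕ) (h : ∀ i ∈ s, 3 ≤ x i) :
    (s = ∅ ∧ ∏ i ∈ s, x i = 1) ∨ 3 ≤ ∏ i ∈ s, x i := by
  classical
  induction s using Finset.induction_on with
  | empty => left; simp
  | insert a s ha ih =>
    right
    rw [Finset.prod_insert ha]
    have h1 := h a (Finset.mem_insert_self a s)
    rcases ih (fun i hi => h i (Finset.mem_insert_of_mem hi)) with ⟨-, h2⟩ | h2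
    · rw [h2]; omega
    · nlinarith

theorem evm : EvmS := by
  refine ⟨bev_mono, ?_, ?_, ?_⟩
  · intro n hn hn12
    have h1 : Bev n ^ 2 ≤ 4 * n := by
      unfold Bev
      rw [if_neg hn12]
      split_ifs with h1
      · omega
      · exact Nat.sqrt_le' _
    have h2 : ((Bev n : ℝ)) ^ 2 ≤ 4 * n := by exact_mod_cast h1
    have h3 : (2 * Real.sqrt n) ^ 2 = 4 * n := by
      rw [mul_pow, Real.sq_sqrt (Nat.cast_nonneg n)]; norm_num
    exact le_of_sq_le_sq (by rw [h3]; exact h2) (by positivity)
  · intro n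
    have h2 : ((Bev n : ℝ)) ^ 2 ≤ 4 * n + 1 := by exact_mod_cast bev_sq n
    have h3 : Real.sqrt n ^ 2 = n := Real.sq_sqrt (Nat.cast_nonneg n)
    have h4 := Real.sqrt_nonneg (n : ℝ)
    apply le_of_sq_le_sq _ (by positivity)
    nlinarith
  · intro ι s x hx
    classical
    induction s using Finset.induction_on with
    | empty => simp [Bbg]
    | insert a s ha ih =>
      have hx' : ∀ i ∈ s, 3 ≤ x i := fun i hi => hx i (Finset.mem_insert_of_mem hi)
      have h1 := hx a (Finset.mem_insert_self a s)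
      rw [Finset.sum_insert ha, Finset.prod_insert ha]
      have h2 := ih hx'
      rcases prod_ge s x hx' with ⟨h3, h4⟩ | h3
      · subst h3
        simp only [Finset.sum_empty, Finset.prod_empty, add_zero, mul_one]
        unfold Bbg
        rw [if_neg (by omega)]
      · have h5 : Bbg (∏ i ∈ s, x i) = Bev (∏ i ∈ s, x i) := by
          unfold Bbg; rw [if_neg (by omega)]
        rw [h5] at h2
        have h6 : Bbg (x a * ∏ i ∈ s, x i) = Bev (x a * ∏ i ∈ s, x i) := by
          unfold Bbg
          rw [if_neg]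
          intro h
          have := Nat.eq_one_of_mul_eq_one_right h
          omega
        rw [h6]
        exact le_trans (by omega) (bev_add h1 h3)

end Pool.Agent.B5.H79
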