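import Pool.Agent.Lib.MP_b5021c_nt.IfaceE5

/-!
# Rows E5_KB5, E5_KC5, E5_KS5 of PaperE5.md: coefficients of the analytic part
-/

namespace Pool.Agent.B5.H79

open Pool.Agent.B5 Polynomial
open Pool.Agent.MP_b5021c_nt (Eis)

/-- The norm of a circle average. -/
theorem norm_avg_le {F : ℂ → ℂ} : ‖Real.circleAverage F 0 1‖ ≤
    Real.circleAverage (fun z => ‖F z‖) 0 1 := by
  rw [Real.circleAverage_def, Real.circleAverage_def, norm_smul, smul_eq_mul, Real.norm_eq_abs,
    abs_of_pos (by positivity)]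
  apply mul_le_mul_of_nonneg_left _ (by positivity)
  exact intervalIntegral.norm_integral_le_integral_norm (by positivity)

theorem ci {E : Type*} [NormedAddCommGroup E] {F : ℂ → E}
    (h : ContinuousOn F (Metric.sphere (0 : ℂ) 1)) : CircleIntegrable F 0 1 :=
  ContinuousOn.circleIntegrable' (by simpa using h)

/-- Averages are bounded through a pointwise inequality. -/
theorem avg_le {F g : ℂ → ℂ} (hF : ContinuousOn F (Metric.sphere (0 : ℂ) 1))
    (hg : ContinuousOn g (Metric.sphere (0 : ℂ) 1))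
    (h : ∀ z : ℂ, ‖z‖ = 1 → 2 * ‖F z‖ ≤ 1 - ‖g z‖ ^ 2) :
    2 * ‖Real.circleAverage F 0 1‖ + Real.circleAverage (fun z => ‖g z‖ ^ 2) 0 1 ≤ 1 := by
  have h1 := norm_avg_le (F := F)
  have hc1 : CircleIntegrable (fun z => ‖F z‖) 0 1 := ci hF.norm
  have hc2 : CircleIntegrable (fun z => ‖g z‖ ^ 2) 0 1 := ci (hg.norm.pow 2)
  have h2 : Real.circleAverage (fun z => 2 * ‖F z‖ + ‖g z‖ ^ 2) 0 1 ≤
      Real.circleAverage (fun _ => (1 : ℝ)) 0 1 := by
    apply Real.circleAverage_mono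
    · exact ci ((continuousOn_const.mul hF.norm).add (hg.norm.pow 2))
    · exact ci continuousOn_const
    · intro z hz
      have := h z (by simpa using hz)
      change 2 * ‖F z‖ + ‖g z‖ ^ 2 ≤ 1
      linarith
  have h3 : Real.circleAverage (fun z => 2 * ‖F z‖ + ‖g z‖ ^ 2) 0 1 =
      2 * Real.circleAverage (fun z => ‖F z‖) 0 1 + Real.circleAverage (fun z => ‖g z‖ ^ 2) 0 1 := by
    have hc3 : CircleIntegrable (fun z => 2 * ‖F z‖) 0 1 := ci (continuousOn_const.mul hF.norm)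
    rw [Real.circleAverage_fun_add hc3 hc2]
    congr 1
    have := Real.circleAverage_fun_smul (a := (2 : ℝ)) (f := fun z => ‖F z‖) (c := 0) (R := 1)
    simpa [smul_eq_mul] using this
  rw [h3, Real.circleAverage_const] at h2
  linarith

/-- The quotient `f / q` on the circle. -/
noncomputable def gq (s r : ℂ[X]) (T c : ℂ) (z : ℂ) : ℂ := c / (1 - T * z) + r.eval z / s.eval z

section

variable {θ : ℝ} {q f : Eis[X]} {s r : ℂ[X]} {T c : ℂ}

theorem T_gt (h : PDat θ q f s r T c) : 1 < ‖T‖ := by rw [h.nT]; exact h.th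

theorem one_sub_ne (h : PDat θ q f s r T c) {z : ℂ} (hz : ‖z‖ = 1) : 1 - T * z ≠ 0 := by
  intro h0
  have h1 : T * z = 1 := by linear_combination -h0
  have h2 : ‖T‖ = 1 := by
    have := congrArg norm h1
    rwa [norm_mul, hz, mul_one, norm_one] at this
  have := T_gt h
  linarith

theorem cont_g (h : PDat θ q f s r T c) : ContinuousOn (gq s r T c) (Metric.sphere (0 : ℂ) 1) := by
  have e : gq s r T c = fun z => c / (1 - T * z) + r.eval z / s.eval z := rfl
  rw [e]
  apply ContinuousOn.add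
  · apply ContinuousOn.div continuousOn_const
    · exact (continuous_const.sub (continuous_const.mul continuous_id)).continuousOn
    · intro z hz
      exact one_sub_ne h (by simpa using hz)
  · apply ContinuousOn.div r.continuous.continuousOn s.continuous.continuousOn
    intro z hz
    exact h.s0 z (le_of_eq (by simpa using hz))

theorem f_eq (h : PDat θ q f s r T c) {z : ℂ} (hz : ‖z‖ = 1) :
    (f.map Eis.emb).eval z = gq s r T c z * (q.map Eis.emb).eval z := by
  have h1 := one_sub_ne h hz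
  have h2 := h.s0 z hz.le
  rw [h.qs, h.fs, gq]
  simp only [eval_add, eval_mul, eval_sub, eval_one, eval_C, eval_X]
  field_simp

theorem vf_eval (z : ℂ) : ((q + X * f).map Eis.emb).eval z =
    (q.map Eis.emb).eval z + z * (f.map Eis.emb).eval z := by
  simp [Polynomial.map_add, Polynomial.map_mul]

/-- Values at `0`. -/
theorem f0_norm (h : PDat θ q f s r T c) : ‖s.eval 0‖ = 1 ∧
    ‖Eis.emb (f.coeff 0)‖ = ‖c + r.eval 0 / s.eval 0‖ := by
  have hs := h.s0 0 (by simp)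
  have h1 : Eis.emb (q.coeff 0) = s.eval 0 := by
    have := congrArg (fun p => p.eval 0) h.qs
    simp only [eval_mul, eval_sub, eval_one, eval_C, eval_X, mul_zero, sub_zero, one_mul] at this
    rwa [← coeff_zero_eq_eval_zero, coeff_map] at this
  have h2 : Eis.emb (f.coeff 0) = c * s.eval 0 + r.eval 0 := by
    have := congrArg (fun p => p.eval 0) h.fs
    simp only [eval_add, eval_mul, eval_sub, eval_one, eval_C, eval_X, mul_zero, sub_zero,
      one_mul] at this
    rwa [← coeff_zero_eq_eval_zero, coeff_map] at this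
  have h3 : ‖s.eval 0‖ = 1 := by rw [← h1]; exact h.q0
  refine ⟨h3, ?_⟩
  have h4 : Eis.emb (f.coeff 0) = (c + r.eval 0 / s.eval 0) * s.eval 0 := by
    rw [h2]; field_simp
  rw [h4, norm_mul, h3, mul_one]

theorem unit_f0 (h : PDat θ q f s r T c) (hh : ‖c + r.eval 0 / s.eval 0‖ ≤ 1703 / 1000) :
    IsUnit (f.coeff 0) := by
  by_contra hcon
  have h1 := Eis.sqrt3_le h.f0 hcon
  rw [(f0_norm h).2] at h1
  have h2 : (1.73 : ℝ) ≤ Real.sqrt 3 := by
    apply Real.le_sqrt_of_sq_le; norm_num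
  linarith

end

theorem kb5 (hMq : Mq5S) (hBe : Be5S) (hSwz : SwzS) : Kb5S := by
  intro θ q f s r T c hθ h hc hcar
  have hT := T_gt h
  have hT0 : T ≠ 0 := by
    intro h0; rw [h0, norm_zero] at hT; linarith
  obtain ⟨hm0, hm1, hmz, -, hmg2, hmzg2⟩ := hMq r s T c (gq s r T c) hT h.s0 (fun z => rfl)
  have hbe := hBe (gq s r T c) (cont_g h)
  rw [hm0, hm1, hmz] at hbe
  set h0 := r.eval 0 / s.eval 0 with hh0
  set h1 := ((derivative r).eval 0 * s.eval 0 - r.eval 0 * (derivative s).eval 0) / s.eval 0 ^ 2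
    with hh1
  set ha := r.eval T⁻¹ / s.eval T⁻¹ with hha
  set B := Real.circleAverage (fun z => ‖gq s r T c z‖ ^ 2) 0 1 with hB
  have hcg := cont_g h
  have hsa : s.eval T⁻¹ ≠ 0 := h.s0 _ (by rw [norm_inv]; exact inv_le_one_of_one_le₀ hT.le)
  have hsa' : 0 < ‖s.eval T⁻¹‖ := norm_pos_iff.2 hsa
  have hha3 : ‖ha‖ ≤ 3 := by
    rw [hha, norm_div, div_le_iff₀ hsa']
    exact h.r3 _ (by rw [norm_inv]; exact inv_le_one_of_one_le₀ hT.le)
  have hTi : ‖T‖⁻¹ ≤ 1 / 1000000 := by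
    rw [h.nT, one_div]
    exact inv_anti₀ (by norm_num) hθ
  have hd7 : ‖ha - h0‖ ≤ 7 / 1000000 := by
    have := hSwz r s h.s0 h.r3 T⁻¹ (by rw [norm_inv]; exact inv_lt_one_of_one_lt₀ hT)
    rw [norm_inv] at this
    linarith
  -- pointwise inequality
  have hpt : ∀ z : ℂ, ‖z‖ = 1 →
      2 * ‖gq s r T c z + z * gq s r T c z ^ 2‖ ≤ 1 - ‖gq s r T c z‖ ^ 2 := by
    intro z hz
    have e1 := hcar z hz
    have hq : 0 < ‖(q.map Eis.emb).eval z‖ := norm_pos_iff.2 (h.nz z hz)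
    rw [vf_eval, f_eq h hz] at e1
    have e2 : (q.map Eis.emb).eval z + z * (gq s r T c z * (q.map Eis.emb).eval z) =
        (1 + z * gq s r T c z) * (q.map Eis.emb).eval z := by ring
    rw [e2, norm_mul, norm_mul] at e1
    have e3 : gq s r T c z + z * gq s r T c z ^ 2 = gq s r T c z * (1 + z * gq s r T c z) := by ring
    rw [e3, norm_mul]
    have hq2 : 0 < ‖(q.map Eis.emb).eval z‖ ^ 2 := by positivity
    by_contra hcon
    push Not at hcon
    nlinarith
  -- first mean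
  have hF1 : ContinuousOn (fun z => gq s r T c z + z * gq s r T c z ^ 2)
      (Metric.sphere (0 : ℂ) 1) := hcg.add (continuousOn_id.mul (hcg.pow 2))
  have a1 := avg_le hF1 hcg hpt
  have m1 : Real.circleAverage (fun z => gq s r T c z + z * gq s r T c z ^ 2) 0 1 =
      h0 + -(2 * c * ha / T) := by
    have hci1 : CircleIntegrable (gq s r T c) 0 1 := ci hcg
    have hci2 : CircleIntegrable (fun z => z * gq s r T c z ^ 2) 0 1 :=
      ci (continuousOn_id.mul (hcg.pow 2))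
    have := Real.circleAverage_fun_add (f₁ := gq s r T c) (f₂ := fun z => z * gq s r T c z ^ 2)
      hci1 hci2
    rw [this, hm0, hmzg2]
  rw [m1] at a1
  -- second mean
  have hzne : ∀ z ∈ Metric.sphere (0 : ℂ) 1, z ≠ 0 := by
    intro z hz h0
    rw [h0] at hz
    simp at hz
  have hF2 : ContinuousOn (fun z => z⁻¹ * gq s r T c z + gq s r T c z ^ 2)
      (Metric.sphere (0 : ℂ) 1) := ((continuousOn_id.inv₀ hzne).mul hcg).add (hcg.pow 2)
  have a2 := avg_le hF2 hcg (by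
    intro z hz
    have hz0 : z ≠ 0 := hzne z (by simpa using hz)
    have e1 : z⁻¹ * gq s r T c z + gq s r T c z ^ 2 =
        z⁻¹ * (gq s r T c z + z * gq s r T c z ^ 2) := by field_simp
    rw [e1, norm_mul, norm_inv, hz, inv_one, one_mul]
    exact hpt z hz)
  have m2 : Real.circleAverage (fun z => z⁻¹ * gq s r T c z + gq s r T c z ^ 2) 0 1 =
      h1 + (h0 ^ 2 + 2 * c * (h0 - ha)) := by
    have hci1 : CircleIntegrable (fun z => z⁻¹ * gq s r T c z) 0 1 :=
      ci ((continuousOn_id.inv₀ hzne).mul hcg)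
    have hci2 : CircleIntegrable (fun z => gq s r T c z ^ 2) 0 1 := ci (hcg.pow 2)
    rw [Real.circleAverage_fun_add hci1 hci2, hm1, hmg2]
  rw [m2] at a2
  -- numbers
  have b1 : ‖h0‖ ≤ ‖h0 + -(2 * c * ha / T)‖ + 2 * (11 / 10) * 3 * (1 / 1000000) := by
    have e1 : h0 = (h0 + -(2 * c * ha / T)) + 2 * c * ha / T := by ring
    have e2 : ‖2 * c * ha / T‖ ≤ 2 * (11 / 10) * 3 * (1 / 1000000) := by
      rw [div_eq_mul_inv, norm_mul, norm_mul, norm_mul, norm_inv]
      have : ‖(2 : ℂ)‖ = 2 := by norm_num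
      rw [this]
      have i1 : 2 * ‖c‖ * ‖ha‖ ≤ 2 * (11 / 10) * 3 :=
        mul_le_mul (by linarith) hha3 (norm_nonneg _) (by norm_num)
      exact mul_le_mul i1 hTi (by positivity) (by norm_num)
    calc ‖h0‖ = ‖(h0 + -(2 * c * ha / T)) + 2 * c * ha / T‖ := by rw [← e1]
      _ ≤ _ := norm_add_le _ _
      _ ≤ _ := by linarith
  have b2 : ‖h1‖ ≤ ‖h1 + (h0 ^ 2 + 2 * c * (h0 - ha))‖ + ‖h0‖ ^ 2 +
      2 * (11 / 10) * (7 / 1000000) := by
    have e1 : h1 = (h1 + (h0 ^ 2 + 2 * c * (h0 - ha))) - h0 ^ 2 - 2 * c * (h0 - ha) := by ring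
    have e2 : ‖2 * c * (h0 - ha)‖ ≤ 2 * (11 / 10) * (7 / 1000000) := by
      rw [norm_mul, norm_mul]
      have : ‖(2 : ℂ)‖ = 2 := by norm_num
      rw [this, norm_sub_rev]
      exact mul_le_mul (by linarith) hd7 (norm_nonneg _) (by norm_num)
    calc ‖h1‖ = ‖(h1 + (h0 ^ 2 + 2 * c * (h0 - ha))) - h0 ^ 2 - 2 * c * (h0 - ha)‖ := by rw [← e1]
      _ ≤ ‖(h1 + (h0 ^ 2 + 2 * c * (h0 - ha))) - h0 ^ 2‖ + ‖2 * c * (h0 - ha)‖ := norm_sub_le _ _
      _ ≤ ‖h1 + (h0 ^ 2 + 2 * c * (h0 - ha))‖ + ‖h0 ^ 2‖ + ‖2 * c * (h0 - ha)‖ := by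
          gcongr; exact norm_sub_le _ _
      _ ≤ _ := by rw [norm_pow]; linarith
  have c0 : 0 ≤ ‖-(c / T)‖ ^ 2 := by positivity
  have n0 := norm_nonneg h0
  have n1 := norm_nonneg h1
  have r1 : ‖h0‖ ≤ 42 / 100 := by
    by_contra hcon
    push Not at hcon
    nlinarith
  have r2 : ‖h1‖ ≤ 477 / 1000 := by
    by_contra hcon
    push Not at hcon
    nlinarith
  obtain ⟨hs1, -⟩ := f0_norm h
  have hs0 : s.eval 0 ≠ 0 := h.s0 0 (by simp)
  refine ⟨?_, ?_, ?_⟩
  · rw [hh0, norm_div, hs1, div_one] at r1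
    rw [hs1]; linarith
  · rw [hh1, norm_div, norm_pow, hs1, one_pow, div_one] at r2
    rw [hs1]; linarith
  · apply unit_f0 h
    calc _ ≤ ‖c‖ + ‖h0‖ := norm_add_le _ _
      _ ≤ _ := by linarith

/-- Averages of `a ‖g‖² + 2 Re F`. -/
theorem avg_re_le {F g : ℂ → ℂ} (a b : ℝ) (hF : ContinuousOn F (Metric.sphere (0 : ℂ) 1))
    (hg : ContinuousOn g (Metric.sphere (0 : ℂ) 1))
    (h : ∀ z : ℂ, ‖z‖ = 1 → a * ‖g z‖ ^ 2 + 2 * (F z).re ≤ b) :
    a * Real.circleAverage (fun z => ‖g z‖ ^ 2) 0 1 + 2 * (Real.circleAverage F 0 1).re ≤ b := by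
  have hc1 : CircleIntegrable (fun z => a * ‖g z‖ ^ 2) 0 1 :=
    ci (continuousOn_const.mul (hg.norm.pow 2))
  have hre : ContinuousOn (fun z => (F z).re) (Metric.sphere (0 : ℂ) 1) :=
    Complex.continuous_re.comp_continuousOn hF
  have hc2 : CircleIntegrable (fun z => 2 * (F z).re) 0 1 := ci (continuousOn_const.mul hre)
  have h2 : Real.circleAverage (fun z => a * ‖g z‖ ^ 2 + 2 * (F z).re) 0 1 ≤
      Real.circleAverage (fun _ => b) 0 1 := by
    apply Real.circleAverage_mono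
    · exact ci ((continuousOn_const.mul (hg.norm.pow 2)).add (continuousOn_const.mul hre))
    · exact ci continuousOn_const
    · intro z hz
      exact h z (by simpa using hz)
  rw [Real.circleAverage_fun_add hc1 hc2, Real.circleAverage_const] at h2
  have e1 : Real.circleAverage (fun z => a * ‖g z‖ ^ 2) 0 1 =
      a * Real.circleAverage (fun z => ‖g z‖ ^ 2) 0 1 := by
    have := Real.circleAverage_fun_smul (a := a) (f := fun z => ‖g z‖ ^ 2) (c := 0) (R := 1)
    simpa [smul_eq_mul] using this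
  have e2 : Real.circleAverage (fun z => 2 * (F z).re) 0 1 = 2 * (Real.circleAverage F 0 1).re := by
    have h3 := Real.circleAverage_fun_smul (a := (2 : ℝ)) (f := fun z => (F z).re) (c := 0) (R := 1)
    have h4 := ContinuousLinearMap.circleAverage_comp_comm Complex.reCLM (ci hF)
    have h5 : (Complex.reCLM ∘ F) = fun z => (F z).re := rfl
    rw [h5] at h4
    simp only [smul_eq_mul] at h3
    rw [h3, h4]
    rfl
  linarith

theorem kc5 (hMq : Mq5S) (hBe : Be5S) : Kc5S := by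
  intro θ q f s r T c hθ h hineq
  have hT := T_gt h
  obtain ⟨hm0, hm1, hmz, hmz2, -, -⟩ := hMq r s T c (gq s r T c) hT h.s0 (fun z => rfl)
  have hbe := hBe (gq s r T c) (cont_g h)
  rw [hmz] at hbe
  have hcg := cont_g h
  have hF : ContinuousOn (fun z => z ^ 2 * gq s r T c z) (Metric.sphere (0 : ℂ) 1) :=
    (continuousOn_id.pow 2).mul hcg
  have a1 := avg_re_le 3 1 hF hcg (by
    intro z hz
    have e1 := hineq z hz
    have hq : 0 < ‖(q.map Eis.emb).eval z‖ := norm_pos_iff.2 (h.nz z hz)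
    rw [f_eq h hz] at e1
    have e2 : z ^ 2 * (gq s r T c z * (q.map Eis.emb).eval z) *
        (starRingEnd ℂ) ((q.map Eis.emb).eval z) =
        ((‖(q.map Eis.emb).eval z‖ ^ 2 : ℝ) : ℂ) * (z ^ 2 * gq s r T c z) := by
      have : (q.map Eis.emb).eval z * (starRingEnd ℂ) ((q.map Eis.emb).eval z) =
          ((‖(q.map Eis.emb).eval z‖ ^ 2 : ℝ) : ℂ) := by
        rw [Complex.mul_conj, Complex.normSq_eq_norm_sq]
      rw [← this]; ring
    rw [e2, Complex.re_ofReal_mul, norm_mul, mul_pow] at e1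
    have hq2 : 0 < ‖(q.map Eis.emb).eval z‖ ^ 2 := by positivity
    by_contra hcon
    push Not at hcon
    nlinarith)
  rw [hmz2] at a1
  have hθ0 : (0 : ℝ) < θ := by linarith
  have hT2 : ‖-(c / T)‖ = ‖c‖ / θ := by rw [norm_neg, norm_div, h.nT]
  rw [hT2] at hbe
  set u := ‖c‖ / θ with hu
  have hre : -(u / θ) ≤ (-(c / T ^ 2)).re := by
    have h1 : |(-(c / T ^ 2)).re| ≤ ‖-(c / T ^ 2)‖ := Complex.abs_re_le_norm _
    have h2 : ‖-(c / T ^ 2)‖ = u / θ := by
      rw [norm_neg, norm_div, norm_pow, h.nT, hu]; field_simp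
    rw [h2] at h1
    exact (abs_le.1 h1).1
  have hu0 : 0 ≤ u := by positivity
  have hu1 : u ≤ 1 := by
    rw [hu, div_le_one hθ0]
    have := h.cT
    have h1 : 0 < 1 / θ := by positivity
    linarith
  have hi : u / θ ≤ 1 / 1000000 := by
    rw [div_le_iff₀ hθ0]
    linarith
  have n1 : 0 ≤ ‖Real.circleAverage (gq s r T c) 0 1‖ ^ 2 := by positivity
  have n2 : 0 ≤ ‖Real.circleAverage (fun z => z⁻¹ * gq s r T c z) 0 1‖ ^ 2 := by positivity
  have hu3 : u ≤ 58 / 100 := by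
    by_contra hcon
    push Not at hcon
    nlinarith
  rw [hu, div_le_iff₀ hθ0] at hu3
  exact hu3

theorem ks5 (hMq : Mq5S) (hBe : Be5S) : Ks5S := by
  intro θ q f s r T c hθ h hineq
  have hT := T_gt h
  obtain ⟨hm0, -, hmz, -, -, -⟩ := hMq r s T c (gq s r T c) hT h.s0 (fun z => rfl)
  have hbe := hBe (gq s r T c) (cont_g h)
  rw [hm0] at hbe
  have hcg := cont_g h
  have hF : ContinuousOn (fun z => z * gq s r T c z) (Metric.sphere (0 : ℂ) 1) :=
    continuousOn_id.mul hcg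
  have a1 := avg_re_le 1 0 hF hcg (by
    intro z hz
    have e1 := hineq z hz
    have hq : 0 < ‖(q.map Eis.emb).eval z‖ := norm_pos_iff.2 (h.nz z hz)
    rw [vf_eval, f_eq h hz] at e1
    have e2 : (q.map Eis.emb).eval z + z * (gq s r T c z * (q.map Eis.emb).eval z) =
        (1 + z * gq s r T c z) * (q.map Eis.emb).eval z := by ring
    rw [e2, norm_mul] at e1
    have e3 : ‖1 + z * gq s r T c z‖ ≤ 1 := by
      by_contra hcon
      push Not at hcon
      nlinarith
    have e4 : ‖1 + z * gq s r T c z‖ ^ 2 =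
        1 + 2 * (z * gq s r T c z).re + ‖gq s r T c z‖ ^ 2 := by
      have e5 : ‖gq s r T c z‖ ^ 2 = ‖z * gq s r T c z‖ ^ 2 := by rw [norm_mul, hz, one_mul]
      rw [e5, ← Complex.normSq_eq_norm_sq, ← Complex.normSq_eq_norm_sq, Complex.normSq_apply,
        Complex.normSq_apply]
      simp only [Complex.add_re, Complex.one_re, Complex.add_im, Complex.one_im]
      ring
    have e6 : ‖1 + z * gq s r T c z‖ ^ 2 ≤ 1 := pow_le_one₀ (norm_nonneg _) e3
    linarith)
  rw [hmz] at a1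
  have hθ0 : (0 : ℝ) < θ := by linarith
  have hre : -(‖c‖ / θ) ≤ (-(c / T)).re := by
    have h1 : |(-(c / T)).re| ≤ ‖-(c / T)‖ := Complex.abs_re_le_norm _
    have h2 : ‖-(c / T)‖ = ‖c‖ / θ := by rw [norm_neg, norm_div, h.nT]
    rw [h2] at h1
    exact (abs_le.1 h1).1
  have n1 : 0 ≤ ‖Real.circleAverage (fun z => z * gq s r T c z) 0 1‖ ^ 2 := by positivity
  have n2 : 0 ≤ ‖Real.circleAverage (fun z => z⁻¹ * gq s r T c z) 0 1‖ ^ 2 := by positivity
  obtain ⟨hs1, -⟩ := f0_norm h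
  have hh0 : ‖r.eval 0 / s.eval 0‖ ^ 2 ≤ 2 * ‖c‖ / θ := by
    have : 2 * ‖c‖ / θ = 2 * (‖c‖ / θ) := by ring
    rw [this]
    linarith
  refine ⟨?_, fun hc => ?_⟩
  · rw [norm_div, hs1, div_one] at hh0
    rw [hs1]
    linarith
  · apply unit_f0 h
    have h3 : 2 * ‖c‖ / θ ≤ (2 / 1000) ^ 2 := by
      rw [div_le_iff₀ hθ0]
      linarith
    have h4 : ‖r.eval 0 / s.eval 0‖ ≤ 2 / 1000 := by
      by_contra hcon
      push Not at hcon
      nlinarith
    calc _ ≤ ‖c‖ + ‖r.eval 0 / s.eval 0‖ := norm_add_le _ _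
      _ ≤ _ := by linarith

end Pool.Agent.B5.H79
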