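import Pool.Agent.Lib.MP_b5021c_nt.IfaceE4

/-!
# Row E4_MFC of PaperE4.md: the two-dimensional face of mutual rays is zero-free on the bidisc
-/

namespace Pool.Agent.B5.H79

open Pool.Agent.B5

theorem univ_fin2 : (Finset.univ : Finset (Finset (Fin 2))) = {∅, {0}, {1}, {0, 1}} := by decide

theorem mfc (hE2 : E2S) (hPoly : PolyS) (hAs : AsanoS) (hMco : McoS) (hEv : EvRS) : MfcS := by
  intro O _ _ _ _ P L _ _ _ _ _ phi D S0 S1 e0 e1 hDD hfr hM z x y hx hy
  have h0 := (hE2 O P L phi D hDD hfr).1
  obtain ⟨hdis, h1, h01, -⟩ := hMco O P L phi D S0 S1 e0 e1 hDD.inj hDD.bin hM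
  obtain ⟨hzf, hcf⟩ := hPoly O P L phi D hDD.inj hDD.bin hDD.st z (h0 z)
  have hu := (hEv O).2.1
  have hb0 : Bin phi S0 := hDD.bin S0 hM.r0.1
  have hb1 : Bin phi S1 := hDD.bin S1 hM.r1.1
  set B0 : Finset P := Finset.univ.filter (fun i => phi S0 i = 1) with hB0
  set B1 : Finset P := Finset.univ.filter (fun i => phi S1 i = 1) with hB1
  have hdj : Disjoint B0 B1 := by
    rw [Finset.disjoint_left]
    intro i hi hi'
    rw [hB0, Finset.mem_filter] at hi
    rw [hB1, Finset.mem_filter] at hi'
    rcases hdis i with h | h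
    · rw [h] at hi; exact absurd hi.2 (by norm_num)
    · rw [h] at hi'; exact absurd hi'.2 (by norm_num)
  have hne : ∀ S : L, Bin phi S → S ≠ 0 → (Finset.univ.filter (fun i => phi S i = 1)).Nonempty := by
    intro S hS hS0
    by_contra hcon
    rw [Finset.not_nonempty_iff_eq_empty, Finset.filter_eq_empty_iff] at hcon
    apply hS0
    apply hDD.inj
    rw [map_zero]
    funext i
    rcases hS i with h | h
    · exact h
    · exact absurd h (hcon (Finset.mem_univ i))
  have key := hAs P (cfz phi z D) hzf 2 ![B0, B1]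
    (by
      intro i j hij
      fin_cases i <;> fin_cases j
      · exact absurd rfl hij
      · simpa using hdj
      · simpa using hdj.symm
      · exact absurd rfl hij)
    (by
      intro i
      fin_cases i
      · simpa using hne S0 hb0 hM.r0.2.1
      · simpa using hne S1 hb1 hM.r1.2.1)
    ![x * evR z (e0 : RO O), y * evR z (e1 : RO O)]
    (by
      intro i
      fin_cases i
      · simpa [hu z _ e0.isUnit] using hx
      · simpa [hu z _ e1.isUnit] using hy)
  rw [univ_fin2] at key
  have c0 : cfz phi z D ∅ = evR z (D.coeff 0) := hcf ∅ 0 (by intro i; simp)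
  have c1 : cfz phi z D B0 = evR z (D.coeff S0) := by
    apply hcf
    intro i
    have hm : i ∈ B0 ↔ phi S0 i = 1 := by simp [hB0]
    rcases hb0 i with h | h
    · simp [hm, h]
    · simp [hm, h]
  have c2 : cfz phi z D B1 = evR z (D.coeff S1) := by
    apply hcf
    intro i
    have hm : i ∈ B1 ↔ phi S1 i = 1 := by simp [hB1]
    rcases hb1 i with h | h
    · simp [hm, h]
    · simp [hm, h]
  have c3 : cfz phi z D (B0 ∪ B1) = evR z (D.coeff (S0 + S1)) := by
    apply hcf
    intro i
    have hm0 : i ∈ B0 ↔ phi S0 i = 1 := by simp [hB0]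
    have hm1 : i ∈ B1 ↔ phi S1 i = 1 := by simp [hB1]
    rcases hdis i with h | h
    · rcases hb1 i with h' | h' <;> simp [hm0, hm1, h, h']
    · rcases hb0 i with h' | h' <;> simp [hm0, hm1, h, h']
  have e1' : evR z (e1 : RO O) * evR z (D.coeff S1) = evR z ((e0 : RO O) * D.coeff S0) := by
    rw [← map_mul, h1]
  have e01' : evR z (e0 : RO O) * evR z (e1 : RO O) * evR z (D.coeff (S0 + S1)) =
      -evR z ((e0 : RO O) * D.coeff S0) := by
    rw [← map_mul, ← map_mul, h01, map_neg]
  intro hcon
  apply key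
  rw [Finset.sum_insert (by decide), Finset.sum_insert (by decide), Finset.sum_insert (by decide),
    Finset.sum_singleton, Finset.prod_pair (by decide)]
  simp only [Finset.biUnion_empty, Finset.prod_empty, Finset.singleton_biUnion,
    Finset.prod_singleton, Finset.biUnion_insert, Matrix.cons_val_zero, Matrix.cons_val_one,
    c0, c1, c2, c3, mul_one]
  rw [map_mul] at e1' e01' hcon
  linear_combination hcon + y * e1' + x * y * e01'

end Pool.Agent.B5.H79
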